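import Pool.Agent.H414.LT.Spec

/-! Stage 1: the selection of the traces. -/

set_option autoImplicit false

namespace Pool.Agent.H414.LT

open Finset

theorem eng_raw (hEng : S_ENG) (J : Type) (Ω : ℕ → Type) [∀ n, Fintype (Ω n)]
    (π : ∀ n, Ω n → ℝ) (raw : ∀ n : ℕ, J → Ω n → ℂ) (w E : J → ℝ)
    (h0 : ∀ n ω, 0 ≤ π n ω) (h1 : ∀ n, ∑ ω, π n ω = 1) (hw : ∀ j, 0 < w j)
    (hE : ∀ j, 0 ≤ E j) (hws : Summable w) (hwE : Summable fun j => w j * E j)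
    (hsec : ∀ n j, ∑ ω, π n ω * ‖raw n j ω‖ ^ 2 ≤ E j) (B : ℕ → ℝ)
    (hB : ∀ n j ω, ‖raw n j ω‖ ≤ B n) :
    ∃ ω : ∀ n, Ω n, ∀ (j : J) (N : ℕ),
      ‖∑ n ∈ range N, (raw n j (ω n) - ∑ v, (π n v : ℂ) * raw n j v)‖ ^ 2 ≤
        (∑' i, w i * E i) / w j * N := by
  refine hEng J Ω π (fun n j v => raw n j v - ∑ v', (π n v' : ℂ) * raw n j v') w E h0 h1 hw hE
    hwE ?_ ?_ ?_
  · intro n j
    simp only [mul_sub, sum_sub_distrib]
    rw [← sum_mul, ← Complex.ofReal_sum, h1, Complex.ofReal_one, one_mul, sub_self]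
  · intro n j
    refine le_trans ?_ (hsec n j)
    set m := ∑ v', (π n v' : ℂ) * raw n j v' with hm
    have e : ∀ v, π n v * ‖raw n j v - m‖ ^ 2 = π n v * ‖raw n j v‖ ^ 2 -
        2 * (starRingEnd ℂ m * ((π n v : ℂ) * raw n j v)).re + π n v * ‖m‖ ^ 2 := by
      intro v
      rw [← Complex.normSq_eq_norm_sq, ← Complex.normSq_eq_norm_sq, ← Complex.normSq_eq_norm_sq,
        Complex.normSq_apply, Complex.normSq_apply, Complex.normSq_apply]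
      simp
      ring
    rw [sum_congr rfl fun v _ => e v, sum_add_distrib, sum_sub_distrib, ← sum_mul, h1, one_mul,
      ← mul_sum, ← Complex.re_sum, ← mul_sum, ← hm]
    have : (starRingEnd ℂ m * m).re = ‖m‖ ^ 2 := by
      rw [← Complex.normSq_eq_norm_sq, Complex.normSq_apply]
      simp
    rw [this]
    nlinarith [sq_nonneg ‖m‖]
  · intro n v
    refine Summable.of_nonneg_of_le (fun j => mul_nonneg (hw j).le (sq_nonneg _)) (fun j => ?_)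
      (hws.mul_right ((2 * B n) ^ 2))
    refine mul_le_mul_of_nonneg_left ?_ (hw j).le
    refine pow_le_pow_left₀ (norm_nonneg _) ?_ 2
    have h2 : ‖∑ v', (π n v' : ℂ) * raw n j v'‖ ≤ B n := by
      calc _ ≤ ∑ v', ‖(π n v' : ℂ) * raw n j v'‖ := norm_sum_le _ _
        _ ≤ ∑ v', π n v' * B n := by
            refine sum_le_sum fun v' _ => ?_
            rw [norm_mul, Complex.norm_real, Real.norm_of_nonneg (h0 n v')]
            exact mul_le_mul_of_nonneg_left (hB n j v') (h0 n v')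
        _ = B n := by rw [← sum_mul, h1, one_mul]
    calc _ ≤ ‖raw n j v‖ + ‖∑ v', (π n v' : ℂ) * raw n j v'‖ := norm_sub_le _ _
      _ ≤ 2 * B n := by linarith [hB n j v]

/-- The number `k` with `2 ^ k < p ≤ 2 ^ (k + 1)`. -/
def kk (p : ℕ) : ℕ := Nat.log 2 (p - 1)

theorem two_le_kk {p : ℕ} (hp : 2 ≤ p) : 2 ^ kk p < p ∧ p ≤ 2 ^ (kk p + 1) := by
  have h1 := Nat.pow_log_le_self 2 (x := p - 1) (by omega)
  have h2 := Nat.lt_pow_succ_log_self (b := 2) (by norm_num) (p - 1)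
  unfold kk
  rw [Nat.succ_eq_add_one] at h2
  omega

theorem mem_blk {p k : ℕ} : p ∈ blk k ↔ p.Prime ∧ kk p = k := by
  unfold blk
  rw [mem_filter, Finset.mem_Ioc]
  constructor
  · rintro ⟨⟨h1, h2⟩, h3⟩
    refine ⟨h3, ?_⟩
    obtain ⟨h4, h5⟩ := two_le_kk h3.two_le
    have h6 : 2 ^ k < 2 ^ (kk p + 1) := by omega
    have h7 : 2 ^ kk p < 2 ^ (k + 1) := by omega
    rw [Nat.pow_lt_pow_iff_right (by norm_num)] at h6 h7
    omega
  · rintro ⟨h1, rfl⟩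
    exact ⟨two_le_kk h1.two_le, h1⟩

section
variable (lam : ∀ m : ℕ, ZMod m → ZMod m → ℝ) (M : ℕ → ℕ) [∀ k, NeZero (M k)] (W : ℕ → ℝ)
  (c : ℕ → ℕ → ℂ)

/-- outcomes at `n` -/
abbrev Om (n : ℕ) : Type := Fin (2 * (n + 1)) × ZMod (M (kk n))

/-- the weights of the outcomes -/
noncomputable def pw (n : ℕ) (ω : Om M n) : ℝ :=
  wt (n + 1) ω.1 * (if n.Prime then lam (M (kk n)) (n : ZMod (M (kk n))) ω.2 else
    if ω.2 = 0 then 1 else 0)

/-- the integer of an outcome -/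
noncomputable def val (n : ℕ) (ω : Om M n) : ℤ :=
  rnd (M (kk n)) ω.2 (2 * √(n : ℝ) * Real.cos (ang (n + 1) ω.1))

/-- the indices of the tests -/
abbrev Jx : Type := (ℕ × ℕ) ⊕ (ℕ × ℕ)

/-- decoding of `(m, u, b, i)` -/
def dec (e : ℕ) : ℕ × ℕ × ℕ × ℕ := Denumerable.ofNat _ e

open Classical in
/-- the tests -/
noncomputable def raw (n : ℕ) : Jx → Om M n → ℂ
  | Sum.inl (d, e), ω => if n.Prime then c (dec e).2.2.2 n *
      ((U d ((val M n ω : ℝ) / √(n : ℝ)) : ℝ) *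
        (if (n : ZMod (dec e).1) = ((dec e).2.1 : ZMod (dec e).1) ∧
          ((val M n ω : ℤ) : ZMod (dec e).1) = ((dec e).2.2.1 : ZMod (dec e).1) then 1 else 0))
      else 0
  | Sum.inr (k, b), ω => if n ∈ blk k ∧ |(val M n ω : ℝ)| ≤ W k ∧
      ((val M n ω : ℤ) : ZMod (M k)) = (b : ZMod (M k)) then 1 else 0

/-- the weights of the tests -/
noncomputable def wj : Jx → ℝ
  | Sum.inl (d, e) => 1 / ((d : ℝ) + 1) ^ 2 * (1 / 2) ^ e
  | Sum.inr (k, b) => 1 / ((k : ℝ) + 1) ^ 2 * (1 / ((b : ℝ) + 1) ^ 2)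

end

theorem wj_pos (j : Jx) : 0 < wj j := by
  rcases j with ⟨d, e⟩ | ⟨k, b⟩ <;> simp only [wj] <;> positivity

theorem summable_sq : Summable fun d : ℕ => 1 / ((d : ℝ) + 1) ^ 2 := by
  have := (summable_nat_add_iff 1).2 (Real.summable_one_div_nat_pow.2 (by norm_num : 1 < 2))
  simpa using this

theorem wj_summable : Summable wj := by
  have h1 : Summable fun x : ℕ × ℕ => 1 / ((x.1 : ℝ) + 1) ^ 2 * (1 / 2) ^ x.2 :=
    Summable.mul_of_nonneg (f := fun d : ℕ => 1 / ((d : ℝ) + 1) ^ 2)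
      (g := fun e : ℕ => ((1 : ℝ) / 2) ^ e) summable_sq
      (summable_geometric_of_lt_one (by norm_num) (by norm_num))
      (fun d => div_nonneg zero_le_one (sq_nonneg _)) (fun e => pow_nonneg (by norm_num) _)
  have h2 : Summable fun x : ℕ × ℕ => 1 / ((x.1 : ℝ) + 1) ^ 2 * (1 / ((x.2 : ℝ) + 1) ^ 2) :=
    Summable.mul_of_nonneg (f := fun d : ℕ => 1 / ((d : ℝ) + 1) ^ 2)
      (g := fun d : ℕ => 1 / ((d : ℝ) + 1) ^ 2) summable_sq summable_sq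
      (fun d => div_nonneg zero_le_one (sq_nonneg _)) (fun d => div_nonneg zero_le_one (sq_nonneg _))
  have e1 : wj ∘ Sum.inl = fun x : ℕ × ℕ => 1 / ((x.1 : ℝ) + 1) ^ 2 * (1 / 2) ^ x.2 := by
    funext ⟨d, e⟩
    simp only [Function.comp_apply, wj]
  have e2 : wj ∘ Sum.inr = fun x : ℕ × ℕ => 1 / ((x.1 : ℝ) + 1) ^ 2 *
      (1 / ((x.2 : ℝ) + 1) ^ 2) := by
    funext ⟨d, e⟩
    simp only [Function.comp_apply, wj]
  exact Summable.sum (f := wj) (e1 ▸ h1) (e2 ▸ h2)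

section
variable (lam : ∀ m : ℕ, ZMod m → ZMod m → ℝ) (M : ℕ → ℕ) [∀ k, NeZero (M k)] (W : ℕ → ℝ)
  (c : ℕ → ℕ → ℂ)

/-- the law of the class at `n` -/
noncomputable def LL (n : ℕ) (b : ZMod (M (kk n))) : ℝ :=
  if n.Prime then lam (M (kk n)) (n : ZMod (M (kk n))) b else if b = 0 then 1 else 0

theorem sum_om (n : ℕ) (F : ℕ → ZMod (M (kk n)) → ℂ) :
    ∑ ω : Om M n, (pw lam M n ω : ℂ) * F ω.1 ω.2 =
      ∑ b : ZMod (M (kk n)), (LL lam M n b : ℂ) *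
        ∑ j ∈ range (2 * (n + 1)), (wt (n + 1) j : ℂ) * F j b := by
  rw [Fintype.sum_prod_type_right]
  refine sum_congr rfl fun b _ => ?_
  rw [mul_sum, ← Fin.sum_univ_eq_sum_range (fun j => (LL lam M n b : ℂ) * ((wt (n + 1) j : ℂ) * F j b))]
  refine sum_congr rfl fun j _ => ?_
  simp only [pw, LL]
  push_cast
  ring

theorem sum_om' (n : ℕ) (F : ℕ → ZMod (M (kk n)) → ℝ) :
    ∑ ω : Om M n, pw lam M n ω * F ω.1 ω.2 =
      ∑ b : ZMod (M (kk n)), LL lam M n b *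
        ∑ j ∈ range (2 * (n + 1)), wt (n + 1) j * F j b := by
  have := sum_om lam M n (fun j b => (F j b : ℂ))
  exact_mod_cast this

/-- the properties of the moduli which are used -/
def MProp : Prop := (∀ k, 0 < M k ∧ M k ≤ k + 1 ∧ M k ^ 2 ≤ 2 ^ k ∧
    ∀ u : ZMod (M k), IsUnit u → ∀ b, 1 ≤ ((k : ℝ) + 1) * lam (M k) u b) ∧
    ∀ m, 0 < m → ∃ k₀, ∀ k, k₀ ≤ k → m ∣ M k

variable {lam M}

omit [∀ k, NeZero (M k)] in
theorem isUnit_p (hM : MProp lam M) {p : ℕ} (hp : p.Prime) :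
    IsUnit (p : ZMod (M (kk p))) := by
  rw [ZMod.isUnit_iff_coprime]
  have h1 := (hM.1 (kk p)).1
  have h2 := (hM.1 (kk p)).2.1
  have h3 := (two_le_kk hp.two_le).1
  have h4 : kk p < 2 ^ kk p := Nat.lt_two_pow_self
  exact (Nat.Prime.coprime_iff_not_dvd hp).2 fun h => by
    have := Nat.le_of_dvd h1 h
    omega

omit [∀ k, NeZero (M k)] in
theorem M_le_sqrt (hM : MProp lam M) {p : ℕ} (hp : p.Prime) :
    (M (kk p) : ℝ) ≤ √(p : ℝ) := by
  have h3 := (two_le_kk hp.two_le).1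
  have h4 := (hM.1 (kk p)).2.2.1
  refine Real.le_sqrt_of_sq_le ?_
  exact_mod_cast h4.trans h3.le

theorem LL_prop (hl : IsLaw lam) (hM : MProp lam M) (n : ℕ) :
    (∀ b, 0 ≤ LL lam M n b) ∧ ∑ b, LL lam M n b = 1 := by
  unfold LL
  by_cases hn : n.Prime
  · simp only [if_pos hn]
    exact ⟨fun b => (hl.pos _ (hM.1 _).1 _ (isUnit_p hM hn) b).le, hl.sum _ _ (isUnit_p hM hn)⟩
  · simp only [if_neg hn]
    refine ⟨fun b => ?_, ?_⟩
    · split_ifs <;> norm_num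
    · simp

theorem pw_nonneg (hWT : S_WT) (hl : IsLaw lam) (hM : MProp lam M) (n : ℕ) (ω : Om M n) :
    0 ≤ pw lam M n ω :=
  mul_nonneg ((hWT (n + 1) (by omega)).1 _) ((LL_prop hl hM n).1 _)

theorem pw_sum (hWT : S_WT) (hl : IsLaw lam) (hM : MProp lam M) (n : ℕ) :
    ∑ ω, pw lam M n ω = 1 := by
  have := sum_om' lam M n (fun _ _ => 1)
  simp only [mul_one] at this
  rw [this, (hWT (n + 1) (by omega)).2.1]
  simp only [mul_one]
  exact (LL_prop hl hM n).2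

theorem not_sq {p : ℕ} (hp : p.Prime) {b : ℤ} (h : b ^ 2 ≤ 4 * p) : b ^ 2 < 4 * p := by
  refine lt_of_le_of_ne h fun h1 => ?_
  have h2 : (2 : ℤ) ∣ b := by
    have : (2 : ℤ) ∣ b ^ 2 := ⟨2 * p, by rw [h1]; ring⟩
    exact Int.Prime.dvd_pow' Nat.prime_two this
  obtain ⟨d, rfl⟩ := h2
  have h3 : d ^ 2 = p := by nlinarith
  have h4 : p = d.natAbs * d.natAbs := by
    zify
    rw [← h3, abs_mul_abs_self]
    ring
  exact (Nat.not_prime_of_mul_eq h4.symm (fun h => by rw [h] at h4; exact hp.ne_one (by omega))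
    (fun h => by rw [h] at h4; exact hp.ne_one (by omega))) hp

theorem rnd_bounds (hR : S_RND) (hM : MProp lam M) {p : ℕ} (hp : p.Prime)
    (b : ZMod (M (kk p))) (j : ℕ) :
    |(rnd (M (kk p)) b (2 * √(p : ℝ) * Real.cos (ang (p + 1) j)) : ℝ) -
        2 * √(p : ℝ) * Real.cos (ang (p + 1) j)| ≤ M (kk p) ∧
    |(rnd (M (kk p)) b (2 * √(p : ℝ) * Real.cos (ang (p + 1) j)) : ℝ)| ≤
      max |2 * √(p : ℝ) * Real.cos (ang (p + 1) j)| (M (kk p)) ∧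
    (rnd (M (kk p)) b (2 * √(p : ℝ) * Real.cos (ang (p + 1) j))) ^ 2 < 4 * (p : ℤ) ∧
    |(rnd (M (kk p)) b (2 * √(p : ℝ) * Real.cos (ang (p + 1) j)) : ℝ)| < 2 * √(p : ℝ) := by
  obtain ⟨-, h1, h2⟩ := hR (M (kk p)) b (2 * √(p : ℝ) * Real.cos (ang (p + 1) j))
  set y := 2 * √(p : ℝ) * Real.cos (ang (p + 1) j) with hy
  set v := rnd (M (kk p)) b y with hv
  have hs : (0 : ℝ) ≤ √(p : ℝ) := Real.sqrt_nonneg _
  have h3 : |(v : ℝ)| ≤ 2 * √(p : ℝ) := by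
    refine h2.trans (max_le ?_ ?_)
    · rw [hy, abs_mul, abs_of_nonneg (by positivity)]
      exact mul_le_of_le_one_right (by positivity) (Real.abs_cos_le_one _)
    · have := M_le_sqrt hM hp
      linarith
  have h4 : v ^ 2 ≤ 4 * (p : ℤ) := by
    have : (v : ℝ) ^ 2 ≤ (2 * √(p : ℝ)) ^ 2 := sq_le_sq' (by linarith [(abs_le.1 h3).1]) (abs_le.1 h3).2
    rw [mul_pow, Real.sq_sqrt (Nat.cast_nonneg _)] at this
    have : (v : ℝ) ^ 2 ≤ 4 * p := by linarith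
    exact_mod_cast this
  have h5 := not_sq hp h4
  refine ⟨h1, h2, h5, ?_⟩
  have h6 : (v : ℝ) ^ 2 < (2 * √(p : ℝ)) ^ 2 := by
    rw [mul_pow, Real.sq_sqrt (Nat.cast_nonneg _)]
    have : (v : ℝ) ^ 2 < 4 * p := by exact_mod_cast h5
    linarith
  exact abs_lt_of_sq_lt_sq h6 (by positivity)

theorem law_p (hR : S_RND) (hLAW : S_LAW) (hM : MProp lam M) {p : ℕ} (hp : p.Prime)
    (b : ZMod (M (kk p))) :
    (∀ n : ℕ, 1 ≤ n → |∑ j ∈ range (2 * (p + 1)), wt (p + 1) j *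
      U n ((rnd (M (kk p)) b (2 * √(p : ℝ) * Real.cos (ang (p + 1) j)) : ℝ) / √(p : ℝ))| ≤
        5 * n * (M (kk p) / √(p : ℝ))) ∧
    (∀ n : ℕ, ∑ j ∈ range (2 * (p + 1)), wt (p + 1) j *
      U n ((rnd (M (kk p)) b (2 * √(p : ℝ) * Real.cos (ang (p + 1) j)) : ℝ) / √(p : ℝ)) ^ 2 ≤ 4) := by
  refine hLAW (M (kk p)) (p + 1) (√(p : ℝ))
    (fun j => (rnd (M (kk p)) b (2 * √(p : ℝ) * Real.cos (ang (p + 1) j)) : ℝ)) (hM.1 _).1
    (M_le_sqrt hM hp) ?_ fun j _ => ?_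
  · have : √(p : ℝ) ≤ p := by
      rw [Real.sqrt_le_left (Nat.cast_nonneg _)]
      have : (1 : ℝ) ≤ p := by exact_mod_cast hp.one_le
      nlinarith
    push_cast
    linarith
  · obtain ⟨h1, h2, -, h3⟩ := rnd_bounds hR hM hp b j
    exact ⟨h1, h2, h3⟩

end

end Pool.Agent.H414.LT
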