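import Pool.Agent.H414.LT.Defs

/-!
The statements which are put together in the project LT (Lang-Trotter counts of systems which
satisfy everything that the Riemann hypothesis for all symmetric powers gives). Paper proofs are
in the docstrings. Every `S_X` is true and is to be proved as a theorem.
-/

set_option autoImplicit false

namespace Pool.Agent.H414.LT

open Finset

/-- ENGINE (selection of outcomes with infinitely many test functions; potential method).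

Proof. For a finite list of outcomes `ω 0, …, ω (N-1)` put `S j = ∑ n < N, φ n j (ω n)` and
`Φ N = ∑' j, w j * ‖S j‖ ^ 2`; the family is summable by `hsum` (`‖x + y‖² ≤ 2‖x‖² + 2‖y‖²`,
induction on `N`). Claim: `ω N` can be chosen with `Φ (N + 1) ≤ Φ N + W`, `W = ∑' j, w j * E j`.
Indeed `∑ ω, π N ω * Φ_{N+1}(ω) = Φ N + 2 Re ∑' j, w j * conj (S j) * ∑ ω, π N ω φ N j ω
+ ∑' j, w j * ∑ ω, π N ω * ‖φ N j ω‖ ^ 2 ≤ Φ N + 0 + W` (finite sums over `ω` commute with `∑'`;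
it may be convenient to show, for each `j`,
`∑ ω, π ω * ‖S j + φ j ω‖ ^ 2 = ‖S j‖ ^ 2 + ∑ ω, π ω * ‖φ j ω‖ ^ 2` first), and a weighted mean
of the numbers `Φ_{N+1}(ω)` is at least their minimum (`π N ω ≥ 0`, `∑ ω, π N ω = 1`).
Hence `Φ N ≤ N * W` for the sequence `ω` constructed recursively (e.g. by strong recursion on `N`, or
build the list of the first `N` outcomes as a dependent function
`Nat.rec` on `{s : ∀ n, Ω n // Φ s N ≤ N * W}` changing only the value at `N`), and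
`w j * ‖S j‖ ^ 2 ≤ Φ N`. -/
def S_ENG : Prop :=
  ∀ (J : Type) (Ω : ℕ → Type) [∀ n, Fintype (Ω n)] (π : ∀ n, Ω n → ℝ)
    (φ : ∀ n : ℕ, J → Ω n → ℂ) (w E : J → ℝ),
    (∀ n ω, 0 ≤ π n ω) → (∀ n, ∑ ω, π n ω = 1) → (∀ j, 0 < w j) → (∀ j, 0 ≤ E j) →
    (Summable fun j => w j * E j) → (∀ n j, ∑ ω, (π n ω : ℂ) * φ n j ω = 0) →
    (∀ n j, ∑ ω, π n ω * ‖φ n j ω‖ ^ 2 ≤ E j) →
    (∀ n ω, Summable fun j => w j * ‖φ n j ω‖ ^ 2) →
    ∃ ω : ∀ n, Ω n, ∀ (j : J) (N : ℕ),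
      ‖∑ n ∈ range N, φ n j (ω n)‖ ^ 2 ≤ (∑' i, w i * E i) / w j * N

/-- `U n (2 cos θ) sin θ = sin ((n + 1) θ)`. (Induction on `n`, two steps.) -/
def S_US : Prop := ∀ (n : ℕ) (θ : ℝ), U n (2 * Real.cos θ) * Real.sin θ = Real.sin ((n + 1) * θ)

/-- For `|t| ≤ 2`: `|U n t| * √(4 - t ^ 2) ≤ 2`.
(Write `t = 2 cos θ`, `θ = arccos (t / 2)`, `√(4 - t²) = 2 |sin θ|`, and use `S_US`.) -/
def S_UB : Prop := ∀ (n : ℕ) (t : ℝ), |t| ≤ 2 → |U n t| * √(4 - t ^ 2) ≤ 2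

/-- `U n s - U n t = (s - t) * ∑ i < n, U i s * U (n - 1 - i) t`.

Proof: generating functions: `∑ U n s X^n = 1 / (1 - s X + X²)`, and
`1/A - 1/B = (B - A)/(A B)`. Or by induction (two steps): put
`D n = ∑ i < n, U i s * U (n - 1 - i) t` (`D 0 = 0`, `D 1 = 1`); from
`U (n-1-i) t`-recursion one gets `D (n + 2) = t * D (n + 1) - D n + U (n + 1) s` (the term `i = n + 1`
of `D (n + 2)` is `U (n + 1) s`, for `i = n` use `U 1 t = t = t * U 0 t`), and both sides of the claim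
satisfy the recursion `x (n + 2) = t * x (n + 1) - x n + (s - t) * U (n + 1) s`. -/
def S_UD : Prop := ∀ (n : ℕ) (s t : ℝ),
  U n s - U n t = (s - t) * ∑ i ∈ range n, U i s * U (n - 1 - i) t

/-- If `|s| ≤ max |t| 1` and `|t| < 2` then
`|U n s - U n t| ≤ |s - t| * n * (9 / (4 - t ^ 2))`.

Proof: by `S_UD` and `S_UB`, `|U i s| |U j t| ≤ (2 / √(4 - s²)) (2 / √(4 - t²))`. As
`4 - s² ≥ min (4 - t²) 3`, `1 / √(4 - s²) ≤ 1 / √(4 - t²) + 1 / √3`, so the product is at most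
`4 / (4 - t²) + 4 / (√3 √(4 - t²)) ≤ (4 + 8 / √3) / (4 - t²) ≤ 9 / (4 - t²)` (as `√(4-t²) ≤ 2`).
-/
def S_UL : Prop := ∀ (n : ℕ) (s t : ℝ), |s| ≤ max |t| 1 → |t| < 2 →
  |U n s - U n t| ≤ |s - t| * n * (9 / (4 - t ^ 2))

/-- The weights: nonnegative, with sum `1`; orthogonality; the sum of `wt / (4 - t²)`.

Let `θ_j = ang h j = π j / (2 h)`, `0 ≤ j < 2 h`.
(1) clear. (2) `sin² θ = (1 - cos 2θ) / 2` and `∑_{j < 2h} cos (2 θ_j) = ∑_{j < 2h} cos (π j / h) = 0`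
(sum over the `2h`-th roots of unity; if `h = 1`: `cos 0 + cos π = 0`).
(3) for `1 ≤ n`, `n + 2 < 4 h`: `sin² θ_j * U n (2 cos θ_j) = sin θ_j sin ((n + 1) θ_j)
= (cos (n θ_j) - cos ((n + 2) θ_j)) / 2` and for `0 < k < 4 h`,
`∑_{j < 2 h} cos (k π j / (2 h)) = (1 - (-1)^k) / 2`: real part of a geometric sum with ratio
`z = exp (i k π / (2h)) ≠ 1`, `z^(2h) = (-1)^k`: for even `k` it is `0`, for odd `k` it is
`Re (2 / (1 - z)) = 1`. (n and n + 2 have the same parity, so the difference is `0`.) For `k = 0` it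
does not occur.
(4) `4 - (2 cos θ)² = 4 sin² θ`; for `j ≥ 1` the term is `wt h j * (1 / (4 sin² θ_j)) = 1 / (4 h)`, and
for `j = 0` it is `0`; so the sum is `(2 h - 1) / (4 h) ≤ 1 / 2`. -/
def S_WT : Prop := ∀ h : ℕ, 1 ≤ h →
  (∀ j, 0 ≤ wt h j) ∧ (∑ j ∈ range (2 * h), wt h j = 1) ∧
  (∀ n : ℕ, 1 ≤ n → n + 2 < 4 * h →
    ∑ j ∈ range (2 * h), wt h j * U n (2 * Real.cos (ang h j)) = 0) ∧
  (∑ j ∈ range (2 * h), wt h j / (4 - (2 * Real.cos (ang h j)) ^ 2) ≤ 1 / 2)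

/-- Rounding towards `0` in a class modulo `M`.

For `y ≥ 0`: `a = c + M ⌊(y - c)/M⌋ ≤ y` and `a > y - M`, so `-M < a ≤ y`; for `y < 0` symmetric:
`y ≤ a < y + M`, so `a < M` and `a ≥ y`. -/
def S_RND : Prop := ∀ (M : ℕ) [NeZero M] (c : ZMod M) (y : ℝ),
  ((rnd M c y : ℤ) : ZMod M) = c ∧ |(rnd M c y : ℝ) - y| ≤ M ∧ |(rnd M c y : ℝ)| ≤ max |y| M

/-- Mean and second moment of `U n` at the rounded points. Let `r > 0` (it is `√p`), `M ≤ r`,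
`r ≤ h`, `y_j = 2 r cos θ_j`, and let `b_j` be integers (reals) with `|b_j - y_j| ≤ M` and
`|b_j| ≤ max |y_j| M` and `|b_j| < 2 r`. Then
(1) `|∑ wt h j * U n (b_j / r)| ≤ 5 * n * (M / r)` for `n ≥ 1`;
(2) `∑ wt h j * (U n (b_j / r)) ^ 2 ≤ 4`.

Proof. Put `t_j = 2 cos θ_j`, `s_j = b_j / r`; `|s_j - t_j| ≤ M / r`, `|s_j| ≤ max |t_j| (M / r) ≤
max |t_j| 1`.
(2): `U n s ^ 2 ≤ 4 / (4 - s²)` (`S_UB`; `|s| < 2`) and `4 / (4 - s²) ≤ 4 / (4 - t²) + 4 / 3` if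
`|t| < 2`, as `4 - s² ≥ min (4 - t²) 3`. The term with `j = 0` has weight `wt h 0 = 0`. Sum with
`S_WT`: `4 * (1 / 2) + 4 / 3 ≤ 4`.
(1): if `n + 2 < 4 h`: the sum with `t_j` in place of `s_j` is `0` (`S_WT`), and the difference is at
most `∑ wt h j * (M / r) * n * 9 / (4 - t_j²) ≤ (9 / 2) n (M / r)` by `S_UL`. If `n + 2 ≥ 4 h` then
`n ≥ 4 h - 2 ≥ 2 h ≥ 2 r`, and by (2) and Cauchy-Schwarz (weights of sum `1`) the left side is at most `2 ≤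
n / r ≤ 5 n (M / r)` (`M ≥ 1`). -/
def S_LAW : Prop := ∀ (M h : ℕ) (r : ℝ) (b : ℕ → ℝ), 1 ≤ M → (M : ℝ) ≤ r → r ≤ h →
  (∀ j < 2 * h, |b j - 2 * r * Real.cos (ang h j)| ≤ M ∧
    |b j| ≤ max |2 * r * Real.cos (ang h j)| M ∧ |b j| < 2 * r) →
  (∀ n : ℕ, 1 ≤ n → |∑ j ∈ range (2 * h), wt h j * U n (b j / r)| ≤ 5 * n * (M / r)) ∧
  (∀ n : ℕ, ∑ j ∈ range (2 * h), wt h j * U n (b j / r) ^ 2 ≤ 4)

/-- The probability that the rounded number is in the window `|b| ≤ W`, from below. With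
`2 M ≤ W ≤ r ≤ h`: `∑_{j : |b_j| ≤ W} wt h j ≥ W / (12 r)`.

Proof. Put `δ = (W - M) / (2 r) ∈ [W / (4 r), 1 / 2]`. If `|cos θ_j| ≤ δ` then `|y_j| ≤ W - M`, so
`|b_j| ≤ W`. For `j = h + i`, `0 ≤ i ≤ 2 h δ / π` (`< h`): `cos θ_j = - sin (π i / (2 h))` has absolute value
at most `π i / (2 h) ≤ δ`, and `wt h j = cos² (π i / (2h)) / h ≥ (1 - δ²) / h ≥ 3 / (4 h)`. There are
at least `2 h δ / π` such `i`, so the sum is at least `(3 / (4 h)) (2 h δ / π) = 3 δ / (2 π) ≥ δ / 3`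
(`π ≤ 4.5`) `≥ W / (12 r)`. -/
def S_WIN : Prop := ∀ (M h : ℕ) (r W : ℝ) (b : ℕ → ℝ), 1 ≤ M → 2 * (M : ℝ) ≤ W → W ≤ r → r ≤ h →
  (∀ j < 2 * h, |b j - 2 * r * Real.cos (ang h j)| ≤ M) →
  W / (12 * r) ≤ ∑ j ∈ range (2 * h), if |b j| ≤ W then wt h j else 0

/-- Slowly growing moduli.

Proof. For `k` let `P k r` be: `r ! ≤ k + 1`, `(r !) ^ 2 ≤ 2 ^ k` and
`1 ≤ (k + 1) * lam (r !) u c` for all units `u` and all `c` modulo `r !`. `P k 0` holds (`0 ! = 1`; modulo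
`1` there is one class `c`, so `lam 1 u c = 1` by `IsLaw.sum`). For fixed `r`, `P k r` holds for all
large `k` (finitely many positive numbers `lam (r !) u c`). Take `M k = (Nat.findGreatest (P k) k) !`. -/
def S_MOD : Prop := ∀ lam : ∀ m : ℕ, ZMod m → ZMod m → ℝ, IsLaw lam →
  ∃ M : ℕ → ℕ, (∀ k, 0 < M k ∧ M k ≤ k + 1 ∧ M k ^ 2 ≤ 2 ^ k ∧
    ∀ u : ZMod (M k), IsUnit u → ∀ c, 1 ≤ ((k : ℝ) + 1) * lam (M k) u c) ∧
    ∀ m, 0 < m → ∃ k₀, ∀ k, k₀ ≤ k → m ∣ M k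

/-- Chebyshev's lower bound for the number of the primes in `(2^k, 2^(k+1)]`.
(From the proof of Bertrand's postulate, or from a result of the library: there are several versions of the
prime number theorem and of Chebyshev's bounds.) -/
def S_CHE : Prop := ∃ c : ℝ, 0 < c ∧ ∀ k : ℕ, c * 2 ^ k / (k + 1) ≤ ((blk k).card : ℝ)

/-- Assignment. Let `A` be a finite set, `T` a finite set of integers, `f` with
`∑ t ∈ T, f t ≤ #A`. Then there is `g : α → Option ℤ` such that exactly `f t` elements of `A` are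
sent to `some t`, for all `t ∈ T`, and all values on `A` are `none` or `some t` with `t ∈ T`.
(Induction on `T`: `Finset.exists_subset_card_eq`.) -/
def S_ASG : Prop := ∀ (α : Type) (A : Finset α) (T : Finset ℤ) (f : ℤ → ℕ),
  ∑ t ∈ T, f t ≤ A.card → ∃ g : α → Option ℤ,
    (∀ t ∈ T, (A.filter fun x => g x = some t).card = f t) ∧
    ∀ x ∈ A, ∀ t, g x = some t → t ∈ T

/-- UPPER BOUND in windows, from the sums of `U n` (Fejér kernel at `π / 2`).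

Let `a` be a system with `|∑_{p ≤ x} U n (tr a p)| ≤ C (n + 1)^(1 + ε) (x + 1)^(1/2 + ε)` for all
`n ≥ 1`, `x` (`C = C(ε)`). Then for all `ε > 0` there is `C` such that for all `k` and all real `W` with
`1 ≤ W ≤ 2 ^ (k / 2)` the number of the primes `2^k < p ≤ 2^(k+1)` with `|a p| ≤ W` is at
most `C * 2 ^ (k (1/2 + ε)) * (W + 2 ^ (k/2) / W)`.

Proof. Let `N ≥ 1` be an integer and
`K(t) = 1 + ∑_{m=1}^{N-1} (1 - m/N) (-1)^m (U (2m) t - U (2m-2) t)`.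
For `t = 2 cos θ`, `U (2m) t - U (2m-2) t = 2 cos (2 m θ)`, so with `φ = 2 θ + π` it is the Fejér kernel
`∑_{|m| < N} (1 - |m|/N) e^{i m φ} = |∑_{l < N} e^{i l φ}|² / N ≥ 0`. If `|t| ≤ 1 / N`
then `|cos θ| ≤ 1 / (2 N)`, hence `|θ - π/2| ≤ π / (4N)`·(1)... so that `|l φ'| ≤ 1` for
`φ' = φ mod 2π`, `|φ'| = 2 |θ - π/2| ≤ 2 arcsin (1/(2N)) ≤ π / (2 N)·...`; it is enough that the real part of each
`e^{i l φ'}` is at least a positive constant `c₀`: then `K(t) ≥ c₀² N`. (For instance `|l φ'| ≤ π/3`, `c₀ = 1/2`,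
if one only uses `|t| ≤ 1 / N`: `arcsin x ≤ π x / 2`, so `|φ'| ≤ 2 (π/2) (1/(2N)) = π / (2N)`; one can use
`|t| ≤ 2 / (3 N)` or a smaller constant to have room; any constant will do since `N` can be changed by a
constant factor.) Sum over the primes `p ≤ x = 2^(k+1)`: with `t = tr a p`,
`c₀² N #{p ∈ blk k : |tr a p| ≤ 1/N} ≤ ∑_{p ≤ x} K(tr a p)
≤ (x + 1) + ∑_{m < N} |∑_p U (2m)| + |∑_p U (2m-2)|`; the term with `U 0` (from `m = 1`) is at most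
`x + 1`, the others are at most `C (2m + 1)^(1+ε) (x+1)^(1/2+ε)`; in total
`≤ 2 (x + 1) + 2 N C (2N)^(1+ε) (x+1)^(1/2+ε)`. So the number is
`≤ C' (x / N + N^(1+ε) x^(1/2+ε))`. For `p ∈ blk k`, `|a p| ≤ W` implies `|tr a p| ≤ W / 2^(k/2)`; take
`N = max 1 ⌊c 2^(k/2) / W⌋` (`N ≤ 2^(k/2)`, so `N^ε ≤ 2^(kε/2)`). (If `N = 1` the trivial bound `x + 1` is enough.)
-/
def S_UPW : Prop := ∀ a : ℕ → ℤ, IsSystem a →
  (∀ ε : ℝ, 0 < ε → ∃ C : ℝ, ∀ n x : ℕ, 1 ≤ n →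
    |∑ p ∈ primesUpTo x, U n (tr a p)| ≤ C * ((n : ℝ) + 1) ^ (1 + ε) * ((x : ℝ) + 1) ^ (1 / 2 + ε)) →
  ∀ ε : ℝ, 0 < ε → ∃ C : ℝ, ∀ (k : ℕ) (W : ℝ), 1 ≤ W → W ≤ (2 : ℝ) ^ ((k : ℝ) / 2) →
    ((((blk k).filter fun p => |(a p : ℝ)| ≤ W).card : ℕ) : ℝ) ≤
      C * (2 : ℝ) ^ ((k : ℝ) * (1 / 2 + ε)) * (W + (2 : ℝ) ^ ((k : ℝ) / 2) / W)

end Pool.Agent.H414.LT
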