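import Pool.Agent.H414.LT.Spec
import Pool.Graph.R_seed8.Helper923.PNT

set_option autoImplicit false

namespace Pool.Agent.H414.LT

open Finset Filter

theorem Che.mem_blk {k p : ℕ} : p ∈ blk k ↔ 2 ^ k < p ∧ p ≤ 2 ^ (k + 1) ∧ p.Prime := by
  unfold blk
  rw [mem_filter, mem_Ioc]
  tauto

theorem Che.theta_blk (k : ℕ) :
    Chebyshev.theta ((2 : ℝ) ^ (k + 1)) - Chebyshev.theta ((2 : ℝ) ^ k) = ∑ p ∈ blk k, Real.log p := by
  have e1 : ⌊(2 : ℝ) ^ (k + 1)⌋₊ = 2 ^ (k + 1) := by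
    have : ((2 : ℝ) ^ (k + 1)) = ((2 ^ (k + 1) : ℕ) : ℝ) := by push_cast; rfl
    rw [this, Nat.floor_natCast]
  have e2 : ⌊(2 : ℝ) ^ k⌋₊ = 2 ^ k := by
    have : ((2 : ℝ) ^ k) = ((2 ^ k : ℕ) : ℝ) := by push_cast; rfl
    rw [this, Nat.floor_natCast]
  unfold Chebyshev.theta
  rw [e1, e2]
  have h : (Ioc 0 (2 ^ (k + 1))).filter Nat.Prime =
      (Ioc 0 (2 ^ k)).filter Nat.Prime ∪ blk k := by
    ext p
    rw [mem_union, mem_filter, mem_filter, mem_Ioc, mem_Ioc, Che.mem_blk]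
    have h3 : 2 ^ k ≤ 2 ^ (k + 1) := Nat.pow_le_pow_right (by norm_num) (by omega)
    constructor
    · rintro ⟨⟨h1, h2⟩, h4⟩
      rcases le_or_gt p (2 ^ k) with h5 | h5
      · exact Or.inl ⟨⟨h1, h5⟩, h4⟩
      · exact Or.inr ⟨h5, h2, h4⟩
    · rintro (⟨⟨h1, h2⟩, h4⟩ | ⟨h1, h2, h4⟩)
      · exact ⟨⟨h1, h2.trans h3⟩, h4⟩
      · exact ⟨⟨h4.pos, h2⟩, h4⟩
  have hd : Disjoint ((Ioc 0 (2 ^ k)).filter Nat.Prime) (blk k) := by
    rw [Finset.disjoint_left]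
    intro p h1 h2
    rw [mem_filter, mem_Ioc] at h1
    rw [Che.mem_blk] at h2
    omega
  rw [h, sum_union hd]
  ring

theorem che : S_CHE := by
  have h := Pool.Agent.Helper923.PNT.theta_div_tendsto
  have hlow : ∀ᶠ x : ℝ in atTop, 7 / 8 < Chebyshev.theta x / x := h.eventually_const_lt (by norm_num)
  have hup : ∀ᶠ x : ℝ in atTop, Chebyshev.theta x / x < 9 / 8 := h.eventually_lt_const (by norm_num)
  obtain ⟨X, hX⟩ := (hlow.and hup).exists_forall_of_atTop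
  obtain ⟨k₀, hk₀⟩ := pow_unbounded_of_one_lt X (by norm_num : (1 : ℝ) < 2)
  refine ⟨min (1 / 2) (1 / 2 ^ k₀), by positivity, fun k => ?_⟩
  have hk1 : (0 : ℝ) < (k : ℝ) + 1 := by positivity
  have h2k : (0 : ℝ) < 2 ^ k := by positivity
  rcases lt_or_ge k k₀ with hk | hk
  · -- Bertrand
    obtain ⟨p, hp, h1, h2⟩ := Nat.exists_prime_lt_and_le_two_mul (2 ^ k) (by positivity)
    have hmem : p ∈ blk k := Che.mem_blk.mpr ⟨h1, by rw [pow_succ, mul_comm]; exact h2, hp⟩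
    have hc : 1 ≤ (blk k).card := card_pos.mpr ⟨p, hmem⟩
    have hc' : (1 : ℝ) ≤ ((blk k).card : ℝ) := by exact_mod_cast hc
    refine le_trans ?_ hc'
    rw [div_le_one hk1]
    have h3 : (2 : ℝ) ^ k ≤ 2 ^ k₀ := pow_le_pow_right₀ (by norm_num) hk.le
    have h4 : min (1 / 2 : ℝ) (1 / 2 ^ k₀) ≤ 1 / 2 ^ k₀ := min_le_right _ _
    calc min (1 / 2 : ℝ) (1 / 2 ^ k₀) * 2 ^ k ≤ (1 / 2 ^ k₀) * 2 ^ k₀ :=
          mul_le_mul h4 h3 h2k.le (by positivity)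
      _ = 1 := by field_simp
      _ ≤ (k : ℝ) + 1 := by
          have : (0 : ℝ) ≤ k := Nat.cast_nonneg k
          linarith
  · have hXk : X ≤ 2 ^ k := hk₀.le.trans (pow_le_pow_right₀ (by norm_num) hk)
    have hXk1 : X ≤ 2 ^ (k + 1) := hXk.trans (pow_le_pow_right₀ (by norm_num) (by omega))
    have h1 := (hX _ hXk1).1
    have h2 := (hX _ hXk).2
    rw [lt_div_iff₀ (by positivity)] at h1
    rw [div_lt_iff₀ h2k] at h2
    have h3 : (5 / 8 : ℝ) * 2 ^ k ≤ ∑ p ∈ blk k, Real.log p := by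
      rw [← Che.theta_blk]
      have : (2 : ℝ) ^ (k + 1) = 2 * 2 ^ k := by ring
      rw [this] at h1 ⊢
      linarith
    have h4 : ∑ p ∈ blk k, Real.log p ≤ ((blk k).card : ℝ) * ((k : ℝ) + 1) := by
      rw [← nsmul_eq_mul]
      refine sum_le_card_nsmul _ _ _ fun p hp => ?_
      rw [Che.mem_blk] at hp
      have hp0 : (0 : ℝ) < p := by exact_mod_cast hp.2.2.pos
      have h5 : Real.log p ≤ Real.log ((2 : ℝ) ^ (k + 1)) :=
        Real.log_le_log hp0 (by exact_mod_cast hp.2.1)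
      rw [Real.log_pow] at h5
      push_cast at h5
      have h6 := Real.log_two_lt_d9
      have h7 : Real.log 2 ≤ 1 := by linarith
      nlinarith
    rw [div_le_iff₀ hk1]
    have h5 : min (1 / 2 : ℝ) (1 / 2 ^ k₀) ≤ 1 / 2 := min_le_left _ _
    nlinarith

end Pool.Agent.H414.LT
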