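import Mathlib

/-!
Systems of integers `a p` with `a p ^ 2 < 4 p` and the sums over the primes which the Riemann
hypothesis for the symmetric powers controls.
-/

set_option autoImplicit false

namespace Pool.Agent.H414.LT

open Finset

/-- The character of the `n`-th symmetric power of `SU(2)` as a function of the trace:
`U n (2 cos θ) = sin ((n + 1) θ) / sin θ`. -/
noncomputable def U : ℕ → ℝ → ℝ
  | 0, _ => 1
  | 1, t => t
  | n + 2, t => t * U (n + 1) t - U n t

@[simp] theorem U_zero (t : ℝ) : U 0 t = 1 := rfl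
@[simp] theorem U_one (t : ℝ) : U 1 t = t := rfl
theorem U_add_two (n : ℕ) (t : ℝ) : U (n + 2) t = t * U (n + 1) t - U n t := rfl

/-- The traces of a system: integers `a p` with `a p ^ 2 < 4 p` for all primes `p`. -/
def IsSystem (a : ℕ → ℤ) : Prop := ∀ p : ℕ, p.Prime → a p ^ 2 < 4 * p

/-- The trace divided by `√p`, a number in `(-2, 2)`. -/
noncomputable def tr (a : ℕ → ℤ) (p : ℕ) : ℝ := (a p : ℝ) / √(p : ℝ)

/-- The primes `p ≤ x`. -/
def primesUpTo (x : ℕ) : Finset ℕ := (range (x + 1)).filter Nat.Prime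

/-- The primes `2 ^ k < p ≤ 2 ^ (k + 1)`. -/
def blk (k : ℕ) : Finset ℕ := (Ioc (2 ^ k) (2 ^ (k + 1))).filter Nat.Prime

/-- The integers `t` with `t ^ 4 ≤ 2 ^ k`. -/
noncomputable def small (k : ℕ) : Finset ℤ := (Icc (-2 ^ k) (2 ^ k)).filter fun t : ℤ => t ^ 4 ≤ 2 ^ k

/-- The points `π j / (2 h)`. -/
noncomputable def ang (h j : ℕ) : ℝ := Real.pi * j / (2 * h)

/-- The weights `sin² (π j / (2 h)) / h`, `j < 2 h`. -/
noncomputable def wt (h j : ℕ) : ℝ := Real.sin (ang h j) ^ 2 / h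

/-- The integer next to `y`, towards `0`, in a given class modulo `M`. -/
noncomputable def rnd (M : ℕ) (c : ZMod M) (y : ℝ) : ℤ :=
  if 0 ≤ y then (c.val : ℤ) + M * ⌊(y - c.val) / M⌋ else (c.val : ℤ) + M * ⌈(y - c.val) / M⌉

/-- A compatible family of laws of the trace modulo `m`, given the determinant `u` modulo `m`. -/
structure IsLaw (lam : ∀ m : ℕ, ZMod m → ZMod m → ℝ) : Prop where
  /-- all classes of the trace have positive probability -/
  pos : ∀ m : ℕ, 0 < m → ∀ u : ZMod m, IsUnit u → ∀ c : ZMod m, 0 < lam m u c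
  /-- the probabilities sum to `1` -/
  sum : ∀ (m : ℕ) [NeZero m] (u : ZMod m), IsUnit u → ∑ c : ZMod m, lam m u c = 1
  /-- the laws are compatible -/
  compat : ∀ (m M : ℕ) [NeZero m] [NeZero M] (h : m ∣ M) (u : ZMod M), IsUnit u → ∀ c : ZMod m,
    lam m (ZMod.castHom h (ZMod m) u) c =
      ∑ c' : ZMod M, if ZMod.castHom h (ZMod m) c' = c then lam M u c' else 0

end Pool.Agent.H414.LT
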