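import Pool.Agent.H414.LT.Spec

/-!
The potential method (helper34)
-/

set_option autoImplicit false

namespace Pool.Agent.H414.LT

open Finset

namespace Eng

theorem key {Ω : Type} [Fintype Ω] (π : Ω → ℝ) (φ : Ω → ℂ) (s : ℂ) (h1 : ∑ ω, π ω = 1)
    (h0 : ∑ ω, (π ω : ℂ) * φ ω = 0) :
    ∑ ω, π ω * ‖s + φ ω‖ ^ 2 = ‖s‖ ^ 2 + ∑ ω, π ω * ‖φ ω‖ ^ 2 := by
  have hx : ∀ ω, π ω * ‖s + φ ω‖ ^ 2 = π ω * ‖s‖ ^ 2 + π ω * ‖φ ω‖ ^ 2 +
      2 * (s * (starRingEnd ℂ) ((π ω : ℂ) * φ ω)).re := by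
    intro ω
    rw [Complex.sq_norm, Complex.sq_norm, Complex.sq_norm, Complex.normSq_add]
    have : (s * (starRingEnd ℂ) ((π ω : ℂ) * φ ω)).re =
        π ω * (s * (starRingEnd ℂ) (φ ω)).re := by
      rw [map_mul, Complex.conj_ofReal]
      simp only [Complex.mul_re, Complex.mul_im, Complex.ofReal_re, Complex.ofReal_im]
      ring
    rw [this]
    ring
  rw [Finset.sum_congr rfl fun ω _ => hx ω, Finset.sum_add_distrib, Finset.sum_add_distrib,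
    ← Finset.sum_mul, h1, one_mul, ← Finset.mul_sum, ← Complex.re_sum, ← Finset.mul_sum,
    ← map_sum, h0, map_zero, mul_zero, Complex.zero_re, mul_zero, add_zero]

theorem summ_add {J : Type} {w : J → ℝ} (hw : ∀ j, 0 < w j) {S T : J → ℂ}
    (hS : Summable fun j => w j * ‖S j‖ ^ 2) (hT : Summable fun j => w j * ‖T j‖ ^ 2) :
    Summable fun j => w j * ‖S j + T j‖ ^ 2 := by
  refine Summable.of_nonneg_of_le (fun j => mul_nonneg (hw j).le (sq_nonneg _)) (fun j => ?_)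
    ((hS.mul_left 2).add (hT.mul_left 2))
  have h1 : ‖S j + T j‖ ≤ ‖S j‖ + ‖T j‖ := norm_add_le _ _
  have h2 : ‖S j + T j‖ ^ 2 ≤ 2 * ‖S j‖ ^ 2 + 2 * ‖T j‖ ^ 2 := by
    nlinarith [norm_nonneg (S j + T j), norm_nonneg (S j), norm_nonneg (T j),
      sq_nonneg (‖S j‖ - ‖T j‖)]
  calc w j * ‖S j + T j‖ ^ 2 ≤ w j * (2 * ‖S j‖ ^ 2 + 2 * ‖T j‖ ^ 2) :=
        mul_le_mul_of_nonneg_left h2 (hw j).le
    _ = 2 * (w j * ‖S j‖ ^ 2) + 2 * (w j * ‖T j‖ ^ 2) := by ring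

/-- one step -/
theorem step {J Ω : Type} [Fintype Ω] (π : Ω → ℝ) (φ : J → Ω → ℂ) (w E : J → ℝ)
    (hπ : ∀ ω, 0 ≤ π ω) (h1 : ∑ ω, π ω = 1) (hw : ∀ j, 0 < w j)
    (hE : Summable fun j => w j * E j) (h0 : ∀ j, ∑ ω, (π ω : ℂ) * φ j ω = 0)
    (h2 : ∀ j, ∑ ω, π ω * ‖φ j ω‖ ^ 2 ≤ E j)
    (h3 : ∀ ω, Summable fun j => w j * ‖φ j ω‖ ^ 2) (S : J → ℂ)
    (hS : Summable fun j => w j * ‖S j‖ ^ 2) :
    ∃ ω : Ω, ∑' j, w j * ‖S j + φ j ω‖ ^ 2 ≤ ∑' j, w j * ‖S j‖ ^ 2 + ∑' j, w j * E j := by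
  by_contra hcon
  push Not at hcon
  have hsum : ∀ ω, Summable fun j => w j * ‖S j + φ j ω‖ ^ 2 := fun ω => summ_add hw hS (h3 ω)
  have hlt : ∑ ω, π ω * (∑' j, w j * ‖S j‖ ^ 2 + ∑' j, w j * E j) <
      ∑ ω, π ω * ∑' j, w j * ‖S j + φ j ω‖ ^ 2 := by
    obtain ⟨ω₀, -, hω₀⟩ := Finset.exists_ne_zero_of_sum_ne_zero
      (show ∑ ω, π ω ≠ 0 by rw [h1]; exact one_ne_zero)
    have hpos : 0 < π ω₀ := lt_of_le_of_ne (hπ ω₀) (Ne.symm hω₀)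
    refine Finset.sum_lt_sum (fun ω _ => mul_le_mul_of_nonneg_left (hcon ω).le (hπ ω))
      ⟨ω₀, Finset.mem_univ _, mul_lt_mul_of_pos_left (hcon ω₀) hpos⟩
  rw [← Finset.sum_mul, h1, one_mul] at hlt
  have heq : ∑ ω, π ω * ∑' j, w j * ‖S j + φ j ω‖ ^ 2 =
      ∑' j, (w j * ‖S j‖ ^ 2 + w j * ∑ ω, π ω * ‖φ j ω‖ ^ 2) := by
    have h4 : ∀ ω, π ω * ∑' j, w j * ‖S j + φ j ω‖ ^ 2 =
        ∑' j, π ω * (w j * ‖S j + φ j ω‖ ^ 2) := fun ω => tsum_mul_left.symm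
    rw [Finset.sum_congr rfl fun ω _ => h4 ω,
      ← Summable.tsum_finsetSum fun ω _ => (hsum ω).mul_left (π ω)]
    refine tsum_congr fun j => ?_
    have h5 := key π (φ j) (S j) h1 (h0 j)
    rw [← mul_add, ← h5, Finset.mul_sum]
    refine Finset.sum_congr rfl fun ω _ => ?_
    ring
  have hle : ∑' j, (w j * ‖S j‖ ^ 2 + w j * ∑ ω, π ω * ‖φ j ω‖ ^ 2) ≤
      ∑' j, w j * ‖S j‖ ^ 2 + ∑' j, w j * E j := by
    rw [← hS.tsum_add hE]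
    have h6 : ∀ j, w j * ‖S j‖ ^ 2 + w j * ∑ ω, π ω * ‖φ j ω‖ ^ 2 ≤
        w j * ‖S j‖ ^ 2 + w j * E j := fun j => by
      have := mul_le_mul_of_nonneg_left (h2 j) (hw j).le
      linarith
    have h7 : Summable fun j => w j * ‖S j‖ ^ 2 + w j * ∑ ω, π ω * ‖φ j ω‖ ^ 2 := by
      refine Summable.of_nonneg_of_le (fun j => ?_) h6 (hS.add hE)
      refine add_nonneg (mul_nonneg (hw j).le (sq_nonneg _)) (mul_nonneg (hw j).le
        (Finset.sum_nonneg fun ω _ => mul_nonneg (hπ ω) (sq_nonneg _)))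
    exact h7.tsum_le_tsum h6 (hS.add hE)
  linarith

end Eng

theorem eng : S_ENG := by
  intro J Ω _ π φ w E hπ h1 hw hE0 hE h0 h2 h3
  set W : ℝ := ∑' j, w j * E j with hW
  let P : ℕ → (J → ℂ) → Prop := fun N S => (Summable fun j => w j * ‖S j‖ ^ 2) ∧
    ∑' j, w j * ‖S j‖ ^ 2 ≤ N * W
  have hstep : ∀ N (S : {S : J → ℂ // P N S}), ∃ ω : Ω N,
      P (N + 1) (fun j => S.1 j + φ N j ω) := by
    rintro N ⟨S, hS1, hS2⟩
    obtain ⟨ω, hω⟩ := Eng.step (π N) (φ N) w E (hπ N) (h1 N) hw hE (h0 N) (h2 N) (h3 N) S hS1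
    refine ⟨ω, Eng.summ_add hw hS1 (h3 N ω), ?_⟩
    show ∑' j, w j * ‖S j + φ N j ω‖ ^ 2 ≤ ((N + 1 : ℕ) : ℝ) * W
    push_cast
    linarith
  choose om hom using hstep
  have hP0 : P 0 (fun _ => 0) := by
    refine ⟨?_, ?_⟩
    · simp only [norm_zero, ne_eq, OfNat.ofNat_ne_zero, not_false_eq_true, zero_pow, mul_zero]
      exact summable_zero
    · simp only [norm_zero, ne_eq, OfNat.ofNat_ne_zero, not_false_eq_true, zero_pow, mul_zero,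
        tsum_zero, Nat.cast_zero, zero_mul]
      exact le_refl _
  let st : (N : ℕ) → {S : J → ℂ // P N S} := fun N => Nat.rec (motive := fun N => {S : J → ℂ // P N S})
    ⟨fun _ => 0, hP0⟩ (fun N S => ⟨fun j => S.1 j + φ N j (om N S), hom N S⟩) N
  have hst : ∀ N j, (st (N + 1)).1 j = (st N).1 j + φ N j (om N (st N)) := fun N j => rfl
  have hst0 : ∀ j, (st 0).1 j = 0 := fun j => rfl
  refine ⟨fun n => om n (st n), fun j N => ?_⟩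
  have hsum : ∀ N, ∑ n ∈ range N, φ n j (om n (st n)) = (st N).1 j := by
    intro N
    induction N with
    | zero => rw [Finset.sum_range_zero, hst0]
    | succ N ih => rw [Finset.sum_range_succ, ih, hst]
  rw [hsum N]
  obtain ⟨hs1, hs2⟩ := (st N).2
  have h5 : w j * ‖(st N).1 j‖ ^ 2 ≤ ∑' j, w j * ‖(st N).1 j‖ ^ 2 :=
    hs1.le_tsum j fun i _ => mul_nonneg (hw i).le (sq_nonneg _)
  have h6 : w j * ‖(st N).1 j‖ ^ 2 ≤ N * W := h5.trans hs2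
  rw [div_mul_eq_mul_div, le_div_iff₀ (hw j)]
  linarith

end Pool.Agent.H414.LT
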