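import Pool.Agent.H414.LT.Spec

/-!
# Project LT, job Uch: Chebyshev identities
-/

set_option autoImplicit false

namespace Pool.Agent.H414.LT

open Finset

theorem us : S_US := by
  intro n θ
  induction n using Nat.twoStepInduction with
  | zero => simp
  | one =>
    rw [U_one, Nat.cast_one, one_add_one_eq_two, Real.sin_two_mul]
    ring
  | more n h1 h2 =>
    have e1 : ((n + 2 : ℕ) + 1 : ℝ) * θ = ((n + 1 : ℕ) + 1 : ℝ) * θ + θ := by
      push_cast
      ring
    have e2 : ((n : ℝ) + 1) * θ = ((n + 1 : ℕ) + 1 : ℝ) * θ - θ := by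
      push_cast
      ring
    rw [U_add_two, sub_mul, mul_assoc, h2, h1, e2, e1, Real.sin_add, Real.sin_sub]
    ring

theorem ub : S_UB := by
  intro n t ht
  rw [abs_le] at ht
  set θ := Real.arccos (t / 2) with hθ
  have hc : 2 * Real.cos θ = t := by
    rw [hθ, Real.cos_arccos (by linarith) (by linarith)]
    ring
  have hs : √(4 - t ^ 2) = 2 * Real.sin θ := by
    have h0 : 0 ≤ 2 * Real.sin θ := by
      rw [hθ, Real.sin_arccos]
      positivity
    rw [← Real.sqrt_sq h0]
    congr 1
    have h1 := Real.sin_sq_add_cos_sq θ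
    rw [← hc]
    nlinarith
  have h0 : 0 ≤ Real.sin θ := by
    rw [hθ, Real.sin_arccos]
    positivity
  have h1 := us n θ
  rw [hc] at h1
  have h2 : |U n t| * Real.sin θ = |Real.sin ((n + 1) * θ)| := by
    rw [← h1, abs_mul, abs_of_nonneg h0]
  have h3 := Real.abs_sin_le_one ((n + 1) * θ)
  rw [hs]
  nlinarith

theorem ud : S_UD := by
  intro n s t
  induction n using Nat.twoStepInduction with
  | zero => simp
  | one => simp
  | more n h1 h2 =>
    have key : ∑ i ∈ range (n + 2), U i s * U (n + 2 - 1 - i) t =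
        t * ∑ i ∈ range (n + 1), U i s * U (n + 1 - 1 - i) t -
          ∑ i ∈ range n, U i s * U (n - 1 - i) t + U (n + 1) s := by
      rw [sum_range_succ, sum_range_succ, sum_range_succ]
      have e1 : n + 2 - 1 - n = 1 := by omega
      have e2 : n + 2 - 1 - (n + 1) = 0 := by omega
      have e3 : n + 1 - 1 - n = 0 := by omega
      rw [e1, e2, e3, U_zero, U_one, mul_add, mul_sum]
      have e4 : ∑ i ∈ range n, U i s * U (n + 2 - 1 - i) t =
          ∑ i ∈ range n, t * (U i s * U (n + 1 - 1 - i) t) -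
            ∑ i ∈ range n, U i s * U (n - 1 - i) t := by
        rw [← sum_sub_distrib]
        refine sum_congr rfl fun i hi => ?_
        rw [mem_range] at hi
        have e5 : n + 2 - 1 - i = (n - 1 - i) + 2 := by omega
        have e6 : n + 1 - 1 - i = (n - 1 - i) + 1 := by omega
        rw [e5, e6, U_add_two]
        ring
      rw [e4]
      ring
    rw [key, U_add_two, U_add_two]
    linear_combination t * h2 - h1

theorem ul : S_UL := by
  intro n s t hs ht
  have hs2 : |s| < 2 := lt_of_le_of_lt hs (max_lt ht (by norm_num))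
  have ht' := abs_lt.1 ht
  have hs' := abs_lt.1 hs2
  have hA2 : 0 < 4 - s ^ 2 := by nlinarith
  have hB2 : 0 < 4 - t ^ 2 := by nlinarith
  set A := √(4 - s ^ 2) with hA
  set B := √(4 - t ^ 2) with hB
  have hA0 : 0 < A := Real.sqrt_pos.2 hA2
  have hB0 : 0 < B := Real.sqrt_pos.2 hB2
  have hAA : A ^ 2 = 4 - s ^ 2 := Real.sq_sqrt hA2.le
  have hBB : B ^ 2 = 4 - t ^ 2 := Real.sq_sqrt hB2.le
  have hAB : 4 * B ≤ 9 * A := by
    by_contra hcon
    push Not at hcon
    have h1 : (9 * A) ^ 2 < (4 * B) ^ 2 := by nlinarith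
    rcases le_max_iff.1 hs with h | h
    · have h2 : s ^ 2 ≤ t ^ 2 := sq_le_sq.2 h
      nlinarith
    · have h2 : s ^ 2 ≤ 1 := by
        have := abs_le.1 h
        nlinarith
      nlinarith [sq_nonneg t]
  rw [ud n s t, abs_mul, mul_assoc]
  refine mul_le_mul_of_nonneg_left ?_ (abs_nonneg _)
  refine (abs_sum_le_sum_abs _ _).trans ?_
  have h : ∀ i ∈ range n, |U i s * U (n - 1 - i) t| ≤ 9 / (4 - t ^ 2) := by
    intro i _
    rw [abs_mul]
    have h1 := ub i s hs2.le
    have h2 := ub (n - 1 - i) t ht.le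
    rw [← hA] at h1
    rw [← hB] at h2
    have h3 : |U i s| ≤ 2 / A := (le_div_iff₀ hA0).2 h1
    have h4 : |U (n - 1 - i) t| ≤ 2 / B := (le_div_iff₀ hB0).2 h2
    have h5 : |U i s| * |U (n - 1 - i) t| ≤ 2 / A * (2 / B) :=
      mul_le_mul h3 h4 (abs_nonneg _) (by positivity)
    refine h5.trans ?_
    rw [← hBB, div_mul_div_comm, div_le_div_iff₀ (by positivity) (by positivity)]
    nlinarith [mul_pos hA0 hB0]
  refine (sum_le_sum h).trans ?_
  rw [sum_const, card_range, nsmul_eq_mul]

end Pool.Agent.H414.LT
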