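import Pool.Agent.H414.LT.Spec

set_option autoImplicit false

namespace Pool.Agent.H414.LT

open Finset

namespace Upw

/-- The identity of Fejér. -/
theorem fejer (φ : ℝ) (N : ℕ) :
    (N : ℝ) + ∑ m ∈ range N, ((N : ℝ) - (m + 1)) * (2 * Real.cos ((m + 1) * φ)) =
      (∑ l ∈ range N, Real.cos (l * φ)) ^ 2 + (∑ l ∈ range N, Real.sin (l * φ)) ^ 2 := by
  induction N with
  | zero => simp
  | succ N ih =>
    have hrefl : ∑ l ∈ range N, (Real.cos (l * φ) * Real.cos (N * φ) +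
        Real.sin (l * φ) * Real.sin (N * φ)) = ∑ m ∈ range N, Real.cos ((m + 1) * φ) := by
      rw [← Finset.sum_range_reflect (fun m : ℕ => Real.cos (((m : ℝ) + 1) * φ)) N]
      refine Finset.sum_congr rfl fun l hl => ?_
      have hl' := Finset.mem_range.mp hl
      have h1 : ((N - 1 - l : ℕ) : ℝ) + 1 = N - l := by
        have h2 : N - 1 - l + 1 + l = N := by omega
        have h3 : ((N - 1 - l : ℕ) : ℝ) + 1 + l = N := by exact_mod_cast h2
        linarith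
      rw [h1, show ((N : ℝ) - l) * φ = N * φ - l * φ by ring, Real.cos_sub]
      ring
    have hL : ∑ m ∈ range (N + 1), (((N + 1 : ℕ) : ℝ) - (m + 1)) * (2 * Real.cos ((m + 1) * φ)) =
        ∑ m ∈ range N, ((N : ℝ) - (m + 1)) * (2 * Real.cos ((m + 1) * φ)) +
          2 * ∑ m ∈ range N, Real.cos ((m + 1) * φ) := by
      rw [Finset.sum_range_succ, Finset.mul_sum, ← Finset.sum_add_distrib]
      have h0 : (((N + 1 : ℕ) : ℝ) - (N + 1)) * (2 * Real.cos ((N + 1) * φ)) = 0 := by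
        push_cast
        ring
      rw [h0, add_zero]
      refine Finset.sum_congr rfl fun m _ => ?_
      push_cast
      ring
    rw [hL, Finset.sum_range_succ (fun l : ℕ => Real.cos (l * φ)),
      Finset.sum_range_succ (fun l : ℕ => Real.sin (l * φ))]
    have h2 : (∑ l ∈ range N, Real.cos (l * φ)) * Real.cos (N * φ) +
        (∑ l ∈ range N, Real.sin (l * φ)) * Real.sin (N * φ) =
        ∑ m ∈ range N, Real.cos ((m + 1) * φ) := by
      rw [← hrefl, Finset.sum_add_distrib, Finset.sum_mul, Finset.sum_mul]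
    have h3 := Real.sin_sq_add_cos_sq (N * φ)
    push_cast
    linear_combination ih - 2 * h2 - h3

theorem U_even (hUS : S_US) (m : ℕ) (ψ : ℝ) :
    U (2 * m) (2 * Real.sin ψ) * Real.cos ψ = (-1) ^ m * Real.cos ((2 * m + 1) * ψ) := by
  have h := hUS (2 * m) (Real.pi / 2 - ψ)
  rw [Real.cos_pi_div_two_sub, Real.sin_pi_div_two_sub] at h
  rw [h]
  have h1 : (((2 * m : ℕ) : ℝ) + 1) * (Real.pi / 2 - ψ) =
      (Real.pi / 2 - (2 * m + 1) * ψ) + m * Real.pi := by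
    push_cast
    ring
  rw [h1, Real.sin_add_nat_mul_pi, Real.sin_pi_div_two_sub]

theorem U_diff (hUS : S_US) (m : ℕ) {ψ : ℝ} (hψ : Real.cos ψ ≠ 0) :
    (-1) ^ (m + 1) * (U (2 * m + 2) (2 * Real.sin ψ) - U (2 * m) (2 * Real.sin ψ)) =
      2 * Real.cos ((m + 1) * (2 * ψ)) := by
  refine mul_right_cancel₀ hψ ?_
  have h1 := U_even hUS m ψ
  have h2 := U_even hUS (m + 1) ψ
  rw [show 2 * (m + 1) = 2 * m + 2 by ring] at h2
  have e1 : Real.cos ((2 * ((m + 1 : ℕ) : ℝ) + 1) * ψ) =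
      Real.cos ((m + 1) * (2 * ψ)) * Real.cos ψ - Real.sin ((m + 1) * (2 * ψ)) * Real.sin ψ := by
    rw [← Real.cos_add]
    congr 1
    push_cast
    ring
  have e2 : Real.cos ((2 * (m : ℝ) + 1) * ψ) =
      Real.cos ((m + 1) * (2 * ψ)) * Real.cos ψ + Real.sin ((m + 1) * (2 * ψ)) * Real.sin ψ := by
    rw [← Real.cos_sub]
    congr 1
    ring
  have e3 : ((-1 : ℝ)) ^ (m + 1) * (-1) ^ (m + 1) = 1 := by
    rw [← mul_pow]; norm_num
  have e4 : ((-1 : ℝ)) ^ (m + 1) * (-1) ^ m = -1 := by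
    rw [pow_succ, mul_right_comm, ← mul_pow]; norm_num
  calc (-1) ^ (m + 1) * (U (2 * m + 2) (2 * Real.sin ψ) - U (2 * m) (2 * Real.sin ψ)) * Real.cos ψ
      = (-1) ^ (m + 1) * (U (2 * m + 2) (2 * Real.sin ψ) * Real.cos ψ) -
        (-1) ^ (m + 1) * (U (2 * m) (2 * Real.sin ψ) * Real.cos ψ) := by ring
    _ = ((-1) ^ (m + 1) * (-1) ^ (m + 1)) * Real.cos ((2 * ((m + 1 : ℕ) : ℝ) + 1) * ψ) -
        ((-1) ^ (m + 1) * (-1) ^ m) * Real.cos ((2 * (m : ℝ) + 1) * ψ) := by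
          rw [h1, h2]; ring
    _ = _ := by rw [e3, e4, e1, e2]; ring

/-- The kernel. -/
noncomputable def F (N : ℕ) (t : ℝ) : ℝ :=
  (N : ℝ) + ∑ m ∈ range N, ((N : ℝ) - (m + 1)) * ((-1) ^ (m + 1) * (U (2 * m + 2) t - U (2 * m) t))

theorem arc {t : ℝ} (ht : |t| < 2) : ∃ ψ : ℝ, t = 2 * Real.sin ψ ∧ Real.cos ψ ≠ 0 ∧ |ψ| ≤ |t| := by
  have h1 : |t / 2| < 1 := by
    rw [abs_div, abs_of_pos (by norm_num : (0 : ℝ) < 2)]
    linarith
  have h2 := abs_lt.mp h1
  have hs : Real.sin (Real.arcsin (t / 2)) = t / 2 := Real.sin_arcsin h2.1.le h2.2.le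
  refine ⟨Real.arcsin (t / 2), by rw [hs]; ring, ?_, ?_⟩
  · intro h0
    have h3 := Real.sin_sq_add_cos_sq (Real.arcsin (t / 2))
    rw [h0, hs] at h3
    have h4 : |t / 2| ^ 2 < 1 := by
      rw [sq_lt_one_iff_abs_lt_one, abs_abs]
      exact h1
    rw [sq_abs] at h4
    linarith
  · have hb : |Real.arcsin (t / 2)| ≤ Real.pi / 2 :=
      abs_le.mpr ⟨Real.neg_pi_div_two_le_arcsin _, Real.arcsin_le_pi_div_two _⟩
    have h3 := Real.mul_le_sin (abs_nonneg (Real.arcsin (t / 2))) hb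
    have h4 : Real.sin |Real.arcsin (t / 2)| = |t / 2| := by
      rcases le_total 0 (Real.arcsin (t / 2)) with h5 | h5
      · rw [abs_of_nonneg h5, hs, abs_of_nonneg]
        rw [← hs]
        exact Real.sin_nonneg_of_nonneg_of_le_pi h5
          (by linarith [Real.arcsin_le_pi_div_two (t / 2), Real.pi_pos])
      · rw [abs_of_nonpos h5, Real.sin_neg, hs, abs_of_nonpos]
        have h6 : 0 ≤ Real.sin (-Real.arcsin (t / 2)) :=
          Real.sin_nonneg_of_nonneg_of_le_pi (by linarith)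
            (by linarith [Real.neg_pi_div_two_le_arcsin (t / 2), Real.pi_pos])
        rw [Real.sin_neg, hs] at h6
        linarith
    rw [h4, abs_div, abs_of_pos (by norm_num : (0 : ℝ) < 2)] at h3
    have hpi := Real.pi_pos
    have hpi4 := Real.pi_le_four
    have h5 : |Real.arcsin (t / 2)| ≤ Real.pi / 4 * |t| := by
      have h6 : 2 / Real.pi * |Real.arcsin (t / 2)| * (Real.pi / 2) ≤ |t| / 2 * (Real.pi / 2) :=
        mul_le_mul_of_nonneg_right h3 (by positivity)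
      have h7 : 2 / Real.pi * |Real.arcsin (t / 2)| * (Real.pi / 2) = |Real.arcsin (t / 2)| := by
        field_simp
      rw [h7] at h6
      linarith
    have h8 : Real.pi / 4 * |t| ≤ 1 * |t| :=
      mul_le_mul_of_nonneg_right (by linarith) (abs_nonneg t)
    linarith

theorem F_eq (hUS : S_US) (N : ℕ) {ψ : ℝ} (hψ : Real.cos ψ ≠ 0) :
    F N (2 * Real.sin ψ) = (∑ l ∈ range N, Real.cos (l * (2 * ψ))) ^ 2 +
      (∑ l ∈ range N, Real.sin (l * (2 * ψ))) ^ 2 := by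
  rw [← fejer]
  unfold F
  congr 1
  refine Finset.sum_congr rfl fun m _ => ?_
  rw [U_diff hUS m hψ]

theorem F_nonneg (hUS : S_US) (N : ℕ) {t : ℝ} (ht : |t| < 2) : 0 ≤ F N t := by
  obtain ⟨ψ, rfl, hψ, _⟩ := arc ht
  rw [F_eq hUS N hψ]
  positivity

theorem F_lower (hUS : S_US) (N : ℕ) {t : ℝ} (ht : |t| < 2) (htN : 2 * N * |t| ≤ 1) :
    (N : ℝ) ^ 2 / 4 ≤ F N t := by
  obtain ⟨ψ, hts, hψ, hψt⟩ := arc ht
  have hF : F N t = (∑ l ∈ range N, Real.cos (l * (2 * ψ))) ^ 2 +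
      (∑ l ∈ range N, Real.sin (l * (2 * ψ))) ^ 2 := by
    rw [hts]
    exact F_eq hUS N hψ
  rw [hF]
  have h1 : (N : ℝ) / 2 ≤ ∑ l ∈ range N, Real.cos (l * (2 * ψ)) := by
    have h2 : ∀ l ∈ range N, (1 / 2 : ℝ) ≤ Real.cos (l * (2 * ψ)) := by
      intro l hl
      have hl' : (l : ℝ) ≤ N := by exact_mod_cast (Finset.mem_range.mp hl).le
      have h3 : |(l : ℝ) * (2 * ψ)| ≤ 1 := by
        rw [abs_mul, abs_mul, abs_of_nonneg (Nat.cast_nonneg l : (0 : ℝ) ≤ l),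
          abs_of_pos (by norm_num : (0 : ℝ) < 2)]
        calc (l : ℝ) * (2 * |ψ|) ≤ N * (2 * |t|) :=
              mul_le_mul hl' (by linarith) (by positivity) (Nat.cast_nonneg N)
          _ = 2 * N * |t| := by ring
          _ ≤ 1 := htN
      have h4 := Real.one_sub_sq_div_two_le_cos (x := (l : ℝ) * (2 * ψ))
      have h5 : ((l : ℝ) * (2 * ψ)) ^ 2 ≤ 1 := by
        rw [← sq_abs]
        exact pow_le_one₀ (abs_nonneg _) h3
      linarith
    calc (N : ℝ) / 2 = ∑ _l ∈ range N, (1 / 2 : ℝ) := by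
          rw [Finset.sum_const, Finset.card_range, nsmul_eq_mul]; ring
      _ ≤ _ := Finset.sum_le_sum h2
  have h3 : ((N : ℝ) / 2) ^ 2 ≤ (∑ l ∈ range N, Real.cos (l * (2 * ψ))) ^ 2 :=
    pow_le_pow_left₀ (by positivity) h1 2
  have h4 : 0 ≤ (∑ l ∈ range N, Real.sin (l * (2 * ψ))) ^ 2 := sq_nonneg _
  linarith

theorem card_primesUpTo (x : ℕ) : ((primesUpTo x).card : ℝ) ≤ x + 1 := by
  have h : (primesUpTo x).card ≤ x + 1 := by
    unfold primesUpTo
    refine le_trans (Finset.card_filter_le _ _) ?_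
    rw [Finset.card_range]
  exact_mod_cast h

theorem tr_lt {a : ℕ → ℤ} (ha : IsSystem a) {p : ℕ} (hp : p.Prime) : |tr a p| < 2 := by
  have h := ha p hp
  have hp0 : (0 : ℝ) < p := by exact_mod_cast hp.pos
  have h1 : ((a p : ℝ)) ^ 2 < 4 * p := by exact_mod_cast h
  unfold tr
  rw [abs_div, abs_of_nonneg (Real.sqrt_nonneg _), div_lt_iff₀ (Real.sqrt_pos.mpr hp0)]
  refine lt_of_pow_lt_pow_left₀ 2 (by positivity) ?_
  rw [sq_abs, mul_pow, Real.sq_sqrt hp0.le]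
  linarith

/-- The basic counting inequality. -/
theorem count (hUS : S_US) {a : ℕ → ℤ} (ha : IsSystem a) (N x : ℕ) (B : ℝ) (T : Finset ℕ)
    (hT : T ⊆ primesUpTo x) (hTt : ∀ p ∈ T, 2 * N * |tr a p| ≤ 1)
    (hB0 : 0 ≤ B)
    (hB : ∀ n, 1 ≤ n → n ≤ 2 * N → |∑ p ∈ primesUpTo x, U n (tr a p)| ≤ B) :
    (N : ℝ) ^ 2 / 4 * T.card ≤ 2 * N * (x + 1) + 2 * N ^ 2 * B := by
  have hN0 : (0 : ℝ) ≤ N := Nat.cast_nonneg N
  have h1 : (N : ℝ) ^ 2 / 4 * T.card ≤ ∑ p ∈ primesUpTo x, F N (tr a p) := by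
    calc (N : ℝ) ^ 2 / 4 * T.card = ∑ _p ∈ T, (N : ℝ) ^ 2 / 4 := by
          rw [Finset.sum_const, nsmul_eq_mul]; ring
      _ ≤ ∑ p ∈ T, F N (tr a p) := Finset.sum_le_sum fun p hp =>
          F_lower hUS N (tr_lt ha (Finset.mem_filter.mp (hT hp)).2) (hTt p hp)
      _ ≤ _ := Finset.sum_le_sum_of_subset_of_nonneg hT fun p hp _ =>
          F_nonneg hUS N (tr_lt ha (Finset.mem_filter.mp hp).2)
  refine le_trans h1 ?_
  have h2 : ∑ p ∈ primesUpTo x, F N (tr a p) = N * (primesUpTo x).card +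
      ∑ m ∈ range N, ((N : ℝ) - (m + 1)) * ((-1) ^ (m + 1) *
        (∑ p ∈ primesUpTo x, U (2 * m + 2) (tr a p) - ∑ p ∈ primesUpTo x, U (2 * m) (tr a p))) := by
    unfold F
    rw [Finset.sum_add_distrib, Finset.sum_const, nsmul_eq_mul, Finset.sum_comm]
    congr 1
    · ring
    · refine Finset.sum_congr rfl fun m _ => ?_
      rw [← Finset.sum_sub_distrib, Finset.mul_sum, Finset.mul_sum]
  rw [h2]
  have hcard := card_primesUpTo x
  have h3 : ∀ m ∈ range N, ((N : ℝ) - (m + 1)) * ((-1) ^ (m + 1) *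
        (∑ p ∈ primesUpTo x, U (2 * m + 2) (tr a p) - ∑ p ∈ primesUpTo x, U (2 * m) (tr a p))) ≤
      N * (2 * B + if m = 0 then (x : ℝ) + 1 else 0) := by
    intro m hm
    have hm' := Finset.mem_range.mp hm
    have hmN : (m : ℝ) + 1 ≤ N := by exact_mod_cast hm'
    have hm0 : (0 : ℝ) ≤ m := Nat.cast_nonneg m
    have e1 : |∑ p ∈ primesUpTo x, U (2 * m + 2) (tr a p)| ≤ B :=
      hB _ (by omega) (by omega)
    have e2 : |∑ p ∈ primesUpTo x, U (2 * m) (tr a p)| ≤ B + if m = 0 then (x : ℝ) + 1 else 0 := by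
      by_cases h0 : m = 0
      · rw [if_pos h0, h0]
        have h5 : ∑ p ∈ primesUpTo x, U (2 * 0) (tr a p) = (primesUpTo x).card := by
          simp
        rw [h5, abs_of_nonneg (Nat.cast_nonneg _)]
        linarith
      · rw [if_neg h0, add_zero]
        exact hB _ (by omega) (by omega)
    have e3 : |(-1 : ℝ) ^ (m + 1) * (∑ p ∈ primesUpTo x, U (2 * m + 2) (tr a p) -
        ∑ p ∈ primesUpTo x, U (2 * m) (tr a p))| ≤ 2 * B + if m = 0 then (x : ℝ) + 1 else 0 := by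
      rw [abs_mul, abs_pow, abs_neg, abs_one, one_pow, one_mul]
      refine le_trans (abs_sub _ _) ?_
      linarith
    have e4 : 0 ≤ (N : ℝ) - (m + 1) := by linarith
    have e5 : (N : ℝ) - (m + 1) ≤ N := by linarith
    calc _ ≤ ((N : ℝ) - (m + 1)) * |(-1 : ℝ) ^ (m + 1) *
          (∑ p ∈ primesUpTo x, U (2 * m + 2) (tr a p) -
          ∑ p ∈ primesUpTo x, U (2 * m) (tr a p))| := mul_le_mul_of_nonneg_left (le_abs_self _) e4
      _ ≤ _ := mul_le_mul e5 e3 (abs_nonneg _) hN0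
  have h4 := Finset.sum_le_sum h3
  have h5 : ∑ m ∈ range N, (N : ℝ) * (2 * B + if m = 0 then (x : ℝ) + 1 else 0) ≤
      N * (2 * N * B) + N * (x + 1) := by
    rw [← Finset.mul_sum, Finset.sum_add_distrib, Finset.sum_const, Finset.card_range,
      nsmul_eq_mul, Finset.sum_ite_eq' (range N) 0]
    have h6 : (if 0 ∈ range N then (x : ℝ) + 1 else 0) ≤ x + 1 := by
      split_ifs
      · exact le_refl _
      · positivity
    calc (N : ℝ) * (N * (2 * B) + if 0 ∈ range N then (x : ℝ) + 1 else 0)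
        ≤ N * (N * (2 * B) + (x + 1)) := mul_le_mul_of_nonneg_left (by linarith) hN0
      _ = _ := by ring
  have h7 : (N : ℝ) * (primesUpTo x).card ≤ N * (x + 1) := mul_le_mul_of_nonneg_left hcard hN0
  calc _ ≤ (N : ℝ) * (x + 1) + (N * (2 * N * B) + N * (x + 1)) :=
        add_le_add h7 (le_trans h4 h5)
    _ = _ := by ring

end Upw

open Pool.Agent.H414.LT.Upw

theorem upw (hUS : S_US) : S_UPW := by
  intro a ha hbd ε hε
  obtain ⟨C0, hC0⟩ := hbd (2 * ε / 3) (by positivity)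
  set ε' : ℝ := 2 * ε / 3 with hε'
  have hε'0 : 0 < ε' := by positivity
  set C1 : ℝ := max C0 0 with hC1
  have hC10 : 0 ≤ C1 := le_max_right _ _
  set C2 : ℝ := 16 * C1 * (2 : ℝ) ^ ε' * (3 : ℝ) ^ (1 / 2 + ε') with hC2
  have hC20 : 0 ≤ C2 := by positivity
  refine ⟨98 + C2, fun k W hW1 hWQ => ?_⟩
  set Q : ℝ := (2 : ℝ) ^ ((k : ℝ) / 2) with hQ
  have hQ0 : 0 < Q := by positivity
  have hQ1 : 1 ≤ Q := le_trans hW1 hWQ
  have hQ2 : Q ^ 2 = (2 : ℝ) ^ k := by
    rw [hQ, ← Real.rpow_natCast, ← Real.rpow_mul (by norm_num : (0 : ℝ) ≤ 2), ← Real.rpow_natCast]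
    congr 1
    push_cast
    ring
  have hR : (2 : ℝ) ^ ((k : ℝ) * (1 / 2 + ε)) = Q ^ (1 + 2 * ε) := by
    rw [hQ, ← Real.rpow_mul (by norm_num : (0 : ℝ) ≤ 2)]
    congr 1
    ring
  rw [hR]
  have hQR : Q ≤ Q ^ (1 + 2 * ε) := by
    calc Q = Q ^ (1 : ℝ) := (Real.rpow_one Q).symm
      _ ≤ _ := Real.rpow_le_rpow_of_exponent_le hQ1 (by linarith)
  have hW0 : 0 < W := by linarith
  have hQW : 0 ≤ Q / W := by positivity
  set T : Finset ℕ := (blk k).filter fun p => |(a p : ℝ)| ≤ W with hT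
  have hTblk : ∀ p ∈ T, 2 ^ k < p ∧ p ≤ 2 ^ (k + 1) ∧ p.Prime ∧ |(a p : ℝ)| ≤ W := by
    intro p hp
    have h1 := Finset.mem_filter.mp hp
    have h2 := Finset.mem_filter.mp h1.1
    have h3 := Finset.mem_Ioc.mp h2.1
    exact ⟨h3.1, h3.2, h2.2, h1.2⟩
  have hcardT : (T.card : ℝ) ≤ Q ^ 2 := by
    have h1 : T.card ≤ 2 ^ k := by
      calc T.card ≤ (blk k).card := Finset.card_filter_le _ _
        _ ≤ (Ioc (2 ^ k) (2 ^ (k + 1))).card := Finset.card_filter_le _ _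
        _ = 2 ^ (k + 1) - 2 ^ k := Nat.card_Ioc _ _
        _ = 2 ^ k := by rw [pow_succ]; omega
    rw [hQ2]
    exact_mod_cast h1
  by_cases hy : Q / (2 * W) < 1
  · -- trivial bound
    have h1 : Q < 2 * W := by rwa [div_lt_one (by linarith)] at hy
    have h2 : (T.card : ℝ) ≤ Q * (2 * W) := by
      refine le_trans hcardT ?_
      rw [pow_two]
      exact mul_le_mul_of_nonneg_left h1.le hQ0.le
    have h3 : Q * (2 * W) ≤ 2 * (Q ^ (1 + 2 * ε) * (W + Q / W)) := by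
      have h4 : Q * W ≤ Q ^ (1 + 2 * ε) * (W + Q / W) :=
        mul_le_mul hQR (by linarith) hW0.le (by positivity)
      linarith
    have h5 : 0 ≤ Q ^ (1 + 2 * ε) * (W + Q / W) := by positivity
    calc (T.card : ℝ) ≤ 2 * (Q ^ (1 + 2 * ε) * (W + Q / W)) := le_trans h2 h3
      _ ≤ (98 + C2) * (Q ^ (1 + 2 * ε) * (W + Q / W)) :=
          mul_le_mul_of_nonneg_right (by linarith) h5
      _ = _ := by ring
  · have hy' : 1 ≤ Q / (2 * W) := not_lt.mp hy
    obtain ⟨N, hN⟩ : ∃ N : ℕ, N = ⌊Q / (2 * W)⌋₊ := ⟨_, rfl⟩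
    have hN1 : 1 ≤ N := by rw [hN]; exact Nat.one_le_floor_iff _ |>.mpr hy'
    have hN1R : (1 : ℝ) ≤ N := by exact_mod_cast hN1
    have hNy : (N : ℝ) ≤ Q / (2 * W) := by rw [hN]; exact Nat.floor_le (by positivity)
    have hyN : Q / (2 * W) < N + 1 := by rw [hN]; exact Nat.lt_floor_add_one _
    have hNlow : Q / (4 * W) ≤ N := by
      have h1 : Q / (4 * W) = Q / (2 * W) / 2 := by field_simp; ring
      rw [h1]
      linarith
    have hN0 : (0 : ℝ) < N := by linarith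
    obtain ⟨x, hx⟩ : ∃ x : ℕ, x = 2 ^ (k + 1) := ⟨_, rfl⟩
    have hxR : (x : ℝ) + 1 ≤ 3 * Q ^ 2 := by
      rw [hQ2, hx]
      push_cast
      have : (1 : ℝ) ≤ 2 ^ k := one_le_pow₀ (by norm_num)
      rw [pow_succ]
      linarith
    have hTsub : T ⊆ primesUpTo x := by
      intro p hp
      obtain ⟨h1, h2, h3, _⟩ := hTblk p hp
      exact Finset.mem_filter.mpr ⟨Finset.mem_range.mpr (by rw [hx]; omega), h3⟩
    have hTt : ∀ p ∈ T, 2 * N * |tr a p| ≤ 1 := by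
      intro p hp
      obtain ⟨h1, h2, h3, h4⟩ := hTblk p hp
      have h5 : Q ≤ √(p : ℝ) := by
        refine Real.le_sqrt_of_sq_le ?_
        rw [hQ2]
        exact_mod_cast h1.le
      have h6 : |tr a p| ≤ W / Q := by
        unfold tr
        rw [abs_div, abs_of_nonneg (Real.sqrt_nonneg _)]
        exact div_le_div₀ hW0.le h4 hQ0 h5
      have h7 : 2 * N * |tr a p| ≤ 2 * (Q / (2 * W)) * (W / Q) :=
        mul_le_mul (by linarith) h6 (abs_nonneg _) (by positivity)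
      have h8 : 2 * (Q / (2 * W)) * (W / Q) = 1 := by field_simp
      linarith
    set B : ℝ := C1 * (2 * (N : ℝ) + 1) ^ (1 + ε') * ((x : ℝ) + 1) ^ (1 / 2 + ε') with hB
    have hB0 : 0 ≤ B := by positivity
    have hBb : ∀ n, 1 ≤ n → n ≤ 2 * N → |∑ p ∈ primesUpTo x, U n (tr a p)| ≤ B := by
      intro n hn hnN
      refine le_trans (hC0 n x hn) ?_
      have h1 : (n : ℝ) + 1 ≤ 2 * N + 1 := by
        have : (n : ℝ) ≤ 2 * N := by exact_mod_cast hnN
        linarith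
      have h2 : ((n : ℝ) + 1) ^ (1 + ε') ≤ (2 * (N : ℝ) + 1) ^ (1 + ε') :=
        Real.rpow_le_rpow (by positivity) h1 (by linarith)
      rw [hB]
      refine mul_le_mul_of_nonneg_right ?_ (by positivity)
      exact mul_le_mul (le_max_left _ _) h2 (by positivity) hC10
    have hcount := count hUS ha N x B T hTsub hTt hB0 hBb
    -- solve for the cardinality
    have hsolve : (T.card : ℝ) ≤ 8 * (x + 1) / N + 8 * B := by
      have h1 : (N : ℝ) ^ 2 / 4 * T.card ≤ (N : ℝ) ^ 2 / 4 * (8 * (x + 1) / N + 8 * B) := by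
        refine le_trans hcount (le_of_eq ?_)
        field_simp
        ring
      exact le_of_mul_le_mul_left h1 (by positivity)
    have hfirst : 8 * ((x : ℝ) + 1) / N ≤ 96 * (Q * W) := by
      rw [div_le_iff₀ hN0]
      have h1 : Q ≤ N * (4 * W) := by
        rwa [div_le_iff₀ (by positivity)] at hNlow
      calc 8 * ((x : ℝ) + 1) ≤ 24 * Q * Q := by nlinarith
        _ ≤ 24 * Q * (N * (4 * W)) := mul_le_mul_of_nonneg_left h1 (by positivity)
        _ = _ := by ring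
    have hsecond : 8 * B ≤ C2 * (Q ^ (1 + 2 * ε) * (Q / W)) := by
      have h1 : 2 * (N : ℝ) + 1 ≤ 2 * (Q / W) := by
        have h2 : Q / (2 * W) = (Q / W) / 2 := by field_simp
        rw [h2] at hNy
        have : 3 * (N : ℝ) ≤ 3 * ((Q / W) / 2) := by linarith
        linarith
      have h2 : Q / W ≤ Q := div_le_self hQ0.le hW1
      have h3 : 2 * (N : ℝ) + 1 ≤ 2 * Q := by linarith
      have h4 : (2 * (N : ℝ) + 1) ^ (1 + ε') ≤ (2 * (Q / W)) * (2 ^ ε' * Q ^ ε') := by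
        rw [Real.rpow_add (by positivity), Real.rpow_one, ← Real.mul_rpow (by norm_num) hQ0.le]
        exact mul_le_mul h1 (Real.rpow_le_rpow (by positivity) h3 hε'0.le) (by positivity)
          (by positivity)
      have h5 : ((x : ℝ) + 1) ^ (1 / 2 + ε') ≤ 3 ^ (1 / 2 + ε') * Q ^ (1 + 2 * ε') := by
        calc ((x : ℝ) + 1) ^ (1 / 2 + ε') ≤ (3 * Q ^ 2) ^ (1 / 2 + ε') :=
              Real.rpow_le_rpow (by positivity) hxR (by positivity)
          _ = 3 ^ (1 / 2 + ε') * (Q ^ 2) ^ (1 / 2 + ε') := Real.mul_rpow (by norm_num) (by positivity)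
          _ = 3 ^ (1 / 2 + ε') * Q ^ (1 + 2 * ε') := by
              rw [← Real.rpow_natCast Q 2, ← Real.rpow_mul hQ0.le]
              congr 2
              push_cast
              ring
      have h6 : Q ^ ε' * Q ^ (1 + 2 * ε') = Q ^ (1 + 2 * ε) := by
        rw [← Real.rpow_add hQ0]
        congr 1
        rw [hε']
        ring
      calc 8 * B = 8 * C1 * ((2 * (N : ℝ) + 1) ^ (1 + ε') * ((x : ℝ) + 1) ^ (1 / 2 + ε')) := by
            rw [hB]; ring
        _ ≤ 8 * C1 * (((2 * (Q / W)) * (2 ^ ε' * Q ^ ε')) *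
              (3 ^ (1 / 2 + ε') * Q ^ (1 + 2 * ε'))) :=
            mul_le_mul_of_nonneg_left (mul_le_mul h4 h5 (by positivity) (by positivity))
              (by positivity)
        _ = C2 * ((Q ^ ε' * Q ^ (1 + 2 * ε')) * (Q / W)) := by rw [hC2]; ring
        _ = _ := by rw [h6]
    have h1 : Q * W ≤ Q ^ (1 + 2 * ε) * (W + Q / W) :=
      mul_le_mul hQR (by linarith) hW0.le (by positivity)
    have h2 : Q ^ (1 + 2 * ε) * (Q / W) ≤ Q ^ (1 + 2 * ε) * (W + Q / W) :=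
      mul_le_mul_of_nonneg_left (by linarith) (by positivity)
    have h5 : 0 ≤ Q ^ (1 + 2 * ε) * (W + Q / W) := by positivity
    calc (T.card : ℝ) ≤ 96 * (Q * W) + C2 * (Q ^ (1 + 2 * ε) * (Q / W)) := by linarith
      _ ≤ 96 * (Q ^ (1 + 2 * ε) * (W + Q / W)) + C2 * (Q ^ (1 + 2 * ε) * (W + Q / W)) :=
          add_le_add (mul_le_mul_of_nonneg_left h1 (by norm_num))
            (mul_le_mul_of_nonneg_left h2 hC20)
      _ ≤ (98 + C2) * (Q ^ (1 + 2 * ε) * (W + Q / W)) := by nlinarith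
      _ = _ := by ring

end Pool.Agent.H414.LT
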